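import Pool.Agent.Helper28.QF.Basis

set_option autoImplicit false

/-!
# Cubic forms over extremal fields

`Extremal v` says that `(K, v)` is extremal. `ZUnif v t` says that `v t` is the largest value below
one, that the residue field is the prime field, and that the value group is a `ℤ`-group (for
`d ≥ 1` every value is `v t ^ i` times a `d`-th power with `i < d`). Valuations are multiplicative:
`v x ≤ 1` on the valuation ring.
-/

universe u w

namespace Pool.Agent.Results.MP_07fc42_lc.CubicForms

open Pool.Agent.Helper28.EX Pool.Agent.Helper28.QF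

/-- Let `(K, v)` be an extremal field. Every anisotropic form of degree `d = 2` or `3`, and every
anisotropic form of any degree `d > 0` whose value is ultrametric, has an orthogonal basis. If `K`
has characteristic `p`, residue field `𝔽_p` and its value group is a `ℤ`-group, then every cubic
form in `10` variables (quadratic form in `5` variables, ultrametric form of degree `d` in more
than `d ^ 2` variables) over `K` has a nontrivial zero. -/
theorem result {K : Type u} {Γ : Type w} [Field K] [LinearOrderedCommGroupWithZero Γ]
    (v : Valuation K Γ) (hx : Extremal v) :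
    (∀ (n d : ℕ) (P : MvPolynomial (Fin n) K), P.IsHomogeneous d → 0 < d →
      (d = 2 ∨ d = 3 ∨ ∀ a b, v (MvPolynomial.eval (a + b) P) ≤
        max (v (MvPolynomial.eval a P)) (v (MvPolynomial.eval b P))) →
      (∀ x, MvPolynomial.eval x P = 0 → x = 0) →
      ∃ b : Module.Basis (Fin n) K (Fin n → K), ∀ y : Fin n → K,
        v (MvPolynomial.eval (∑ i, y i • b i) P) =
          Finset.univ.sup fun i => v (y i) ^ d * v (MvPolynomial.eval (b i) P)) ∧
    ∀ (p : ℕ) [Fact p.Prime] [CharP K p] (t : K), ZUnif v t →
      ∀ (n d : ℕ) (P : MvPolynomial (Fin n) K), P.IsHomogeneous d → 0 < d →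
        (d = 2 ∨ d = 3 ∨ ∀ a b, v (MvPolynomial.eval (a + b) P) ≤
          max (v (MvPolynomial.eval a P)) (v (MvPolynomial.eval b P))) →
        d ^ 2 < n → ∃ x : Fin n → K, x ≠ 0 ∧ MvPolynomial.eval x P = 0 := by
  refine ⟨fun n d P hP hd hu ha => orth_basis hx (normLike_of hx hP hd ha hu), ?_⟩
  intro p _ _ t ht n d P hP hd hu hn
  by_contra hnot
  apply not_normLike p hx ht hn hP
  refine normLike_of hx hP hd (fun x hx0 => ?_) hu
  by_contra hne
  exact hnot ⟨x, hne, hx0⟩

end Pool.Agent.Results.MP_07fc42_lc.CubicForms
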