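import Pool.Agent.Helper28.BR.DA

/-! MP_07fc42_lc, Q1: division algebras over extremal fields satisfying (A). -/

set_option autoImplicit false

universe u w z z'

namespace Pool.Agent.Results.MP_07fc42_lc.DivisionAlgebras

open Pool.Agent.Helper28.EX Pool.Agent.Helper28.QF Pool.Agent.Helper28.BR

/-- Let `(K, v)` be an extremal valued field of characteristic `p` whose residue field is the prime
field and whose value group is a `ℤ`-group with the least positive value `v t` (`ZUnif`; valuations
are written multiplicatively). `Std p t m r D` means that `D` has a `K`-basis `ζ ^ i * π ^ j`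
(`i, j < m`) where `ζ` is a root of unity of order `p ^ m - 1`, `π * ζ = ζ ^ (p ^ r) * π` and
`π ^ m = t`.
Division algebras are the finite dimensional algebras without zero divisors (`IsDomain`).
(1) Every central finite dimensional division algebra `D` over `K` satisfies `Std p t m r D` for
exactly one pair `(m, r)` with `r < m` and `r` prime to `m`.
(2) For every such pair there is such a `D`.
(3) It is unique up to isomorphism.
(4) Every finite dimensional division algebra `D` over `K`, central or not, is defectless: it has a
basis `ζ ^ i * π ^ a` (`i < f`, `a < e`), where `ζ` is a root of unity of order `p ^ f - 1`,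
`π * ζ = ζ ^ (p ^ r) * π`, the norm of `π` has the value of `t ^ f`, and the value of the norm of a
linear combination is the largest value of the norms of its terms. -/
theorem result (p : ℕ) [Fact p.Prime] (K : Type u) [Field K] [CharP K p] (Γ : Type w)
    [LinearOrderedCommGroupWithZero Γ] (v : Valuation K Γ) (hE : Extremal v) (t : K)
    (ht : ZUnif v t) :
    (∀ (D : Type z) [Ring D] [IsDomain D] [Algebra K D] [FiniteDimensional K D]
      [Algebra.IsCentral K D],
      ∃! q : ℕ × ℕ, q.2 < q.1 ∧ Nat.Coprime q.2 q.1 ∧ Std p t q.1 q.2 D) ∧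
    (∀ m r : ℕ, r < m → Nat.Coprime r m → Occurs p t m r) ∧
    (∀ (D₁ : Type z) (D₂ : Type z') [Ring D₁] [IsDomain D₁] [Algebra K D₁] [Ring D₂]
      [IsDomain D₂] [Algebra K D₂] (m r : ℕ), r < m → Std p t m r D₁ → Std p t m r D₂ →
        Nonempty (D₁ ≃ₐ[K] D₂)) ∧
    (∀ (D : Type z) [Ring D] [IsDomain D] [Algebra K D] [FiniteDimensional K D],
      Defectless p v t D) :=
  ⟨fun _ _ _ _ _ _ => DA.part1 hE ht, fun _ _ => DA.part2 hE ht,
    fun _ _ _ _ _ _ _ _ _ _ => DA.part3, fun _ _ _ _ _ => DA.part4 hE ht⟩

end Pool.Agent.Results.MP_07fc42_lc.DivisionAlgebras
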