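import Pool.Agent.Helper28.EX.GapMain

/-!
# Extremal valued fields: existential sentences with a uniformizer
-/

set_option autoImplicit false

universe u w

namespace Pool.Agent.Results.MP_07fc42_lc.ExistentialGap

open Pool.Agent.Helper28.EX

variable {K : Type u} {Γ : Type w} [Field K] [LinearOrderedCommGroupWithZero Γ]

theorem result {p : ℕ} [Fact p.Prime] [CharP K p] (v : Valuation K Γ) (t : K)
    (hE : Extremal v) (hA : Unif p v t) :
    (∀ (A : Type) [CommRing A] (i : A →+* K) (s : A →+* PowerSeries (ZMod p)),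
      Expansion v t i s → ∀ (n r : ℕ) (h : Fin r → MvPolynomial (Fin n) A)
        (g : MvPolynomial (Fin n) A),
        (∃ b : Fin n → K, (∀ k, v (b k) ≤ 1) ∧ Sol i h g b) →
          (∃ a : Fin n → PowerSeries (ZMod p), Sol s h g a) ∨ Gap v t i h g) ∧
    ((∀ x : K, x ≠ 0 → (∀ N : ℕ, v x < v t ^ N) →
        ∃ σ : K ≃+* K, (∀ y, v (σ y) ≤ 1 ↔ v y ≤ 1) ∧ σ t = t ∧ v (σ x) ≠ v x) →
      ∀ (n r : ℕ) (h : Fin r → MvPolynomial (Fin n) (Polynomial (ZMod p)))
        (g : MvPolynomial (Fin n) (Polynomial (ZMod p))),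
        (∃ b : Fin n → K, (∀ k, v (b k) ≤ 1) ∧ Sol (atT p t) h g b) ↔
          ∃ a : Fin n → PowerSeries (ZMod p), Sol Polynomial.coeToPowerSeries.ringHom h g a) :=
  final v t hE hA

end Pool.Agent.Results.MP_07fc42_lc.ExistentialGap
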