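import Pool.Agent.Helper28.EX.Exi

/-!
# Extremal valued fields: nearest points on affine varieties
-/

set_option autoImplicit false

universe u w

namespace Pool.Agent.Results.MP_07fc42_lc.ExtremalOnVarieties

open Pool.Agent.Helper28.EX

variable {K : Type u} {Γ : Type w} [Field K] [LinearOrderedCommGroupWithZero Γ]

/-- the integral points `V(O)` of the affine variety `V` with the equations `h` -/
def intPts (v : Valuation K Γ) {n r : ℕ} (h : Fin r → MvPolynomial (Fin n) K) :
    Set (Fin n → K) :=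
  {a | (∀ i, v (a i) ≤ 1) ∧ ∀ j, MvPolynomial.eval a (h j) = 0}

/-- the distance of `z` and `P(a)` -/
noncomputable def dst (v : Valuation K Γ) {n m : ℕ} (z : Fin m → K) (P : Fin m → MvPolynomial (Fin n) K)
    (a : Fin n → K) : Γ :=
  Finset.univ.sup fun i => v (z i - MvPolynomial.eval a (P i))

theorem result {p : ℕ} [Fact p.Prime] [CharP K p] (v : Valuation K Γ) (t : K)
    (hE : Extremal v) (hA : Unif p v t) (n m r : ℕ) (h : Fin r → MvPolynomial (Fin n) K)
    (P : Fin m → MvPolynomial (Fin n) K) (z : Fin m → K) (hV : (intPts v h).Nonempty) :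
    (∃ a ∈ intPts v h, ∀ b ∈ intPts v h, dst v z P a ≤ dst v z P b) ∧
      ∃ a ∈ intPts v h, ∀ b ∈ intPts v h, dst v z P b ≤ dst v z P a := by
  obtain ⟨Ψ, d, hd, hΨ⟩ := form (n := n) hA (Finset.univ : Finset (Fin m))
    (fun j => MvPolynomial.C (z j) - P j)
  have h1 : ∀ a : Fin n → K, v (MvPolynomial.eval a Ψ) = dst v z P a ^ d := by
    intro a
    rw [hΨ]
    simp only [map_sub, MvPolynomial.eval_C]
    rfl
  constructor
  · obtain ⟨a, ha, hah, hmin⟩ := ext_var hE hA h Ψ hV
    refine ⟨a, ⟨ha, hah⟩, fun b hb => ?_⟩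
    have h2 := hmin b hb.1 hb.2
    rw [h1, h1] at h2
    exact (pow_le_pow_iff_left₀ zero_le zero_le hd.ne').1 h2
  · obtain ⟨a, ha, hah, hmax⟩ := ext_max hE hA h Ψ hV
    refine ⟨a, ⟨ha, hah⟩, fun b hb => ?_⟩
    have h2 := hmax b hb.1 hb.2
    rw [h1, h1] at h2
    exact (pow_le_pow_iff_left₀ zero_le zero_le hd.ne').1 h2

end Pool.Agent.Results.MP_07fc42_lc.ExtremalOnVarieties
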